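import Pool.Agent.H8Golod.Proof

/-!
# Products of Golod ideals need not be Golod

`S = k[x₀,x₁,x₂,x₃]`, `𝔪 = (x₀,x₁,x₂,x₃)`, `I₁ = 𝔪²`, `I₂ = 𝔪·(x₀⁴,x₁⁴,x₂⁴,x₃⁴) + ((x₀x₁x₂x₃)³)`.
Both `I₁` and `I₂` are Golod, both lie in `𝔪²`, and `I₁I₂` is not Golod.
-/

namespace Pool.Agent.Results.MP_6756f0_al.BothGolod

open Pool.Agent.H8Golod

universe u

theorem result (k : Type u) [Field k] (w : Fin 4 → ℕ) :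
    (I1 k ≠ ⊤ ∧ IsHomog w (I1 k) ∧ IsGolod w (I1 k)) ∧
      (I2 k ≠ ⊤ ∧ IsHomog w (I2 k) ∧ IsGolod w (I2 k)) ∧
      I2 k ≤ I1 k ∧ ¬ IsGolod w (I1 k * I2 k) :=
  main k w

end Pool.Agent.Results.MP_6756f0_al.BothGolod
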